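import Mathlib

set_option autoImplicit false

open Finset
open scoped Matrix.Norms.L2Operator ComplexConjugate

namespace Pool.Agent.TH325.AG

/-- the vector `e_k + e_{k+1}` -/
noncomputable def av {n : ℕ} (k : Fin n) (j : Fin (n + 1)) : ℝ :=
  if j = k.castSucc ∨ j = k.succ then 1 else 0

/-- the overlap of two neighbouring vectors -/
noncomputable def kap {n : ℕ} (k l : Fin n) : ℝ := (1 / 2) * ∑ j, av k j * av l j

theorem sum_av {n : ℕ} (k : Fin n) (f : Fin (n + 1) → ℝ) :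
    ∑ j, av k j * f j = f k.castSucc + f k.succ := by
  have hne : k.castSucc ≠ k.succ := by
    intro h
    have := congrArg Fin.val h
    simp at this
  have h1 : ∀ j, av k j * f j = (if j = k.castSucc then f j else 0) +
      (if j = k.succ then f j else 0) := by
    intro j
    unfold av
    by_cases h1 : j = k.castSucc
    · subst h1
      rw [if_pos (Or.inl rfl), if_pos rfl, if_neg hne]
      ring
    · by_cases h2 : j = k.succ
      · subst h2
        rw [if_pos (Or.inr rfl), if_neg h1, if_pos rfl]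
        ring
      · rw [if_neg (by tauto), if_neg h1, if_neg h2]
        ring
  simp only [h1]
  rw [Finset.sum_add_distrib, Finset.sum_ite_eq' univ, Finset.sum_ite_eq' univ]
  simp

theorem av_sq {n : ℕ} (k : Fin n) : ∑ j, av k j * av k j = 2 := by
  rw [sum_av]
  unfold av
  rw [if_pos (Or.inl rfl), if_pos (Or.inr rfl)]
  norm_num

theorem kap_self {n : ℕ} (k : Fin n) : kap k k = 1 := by
  unfold kap
  rw [av_sq]
  norm_num

/-- the overlap in terms of the distance -/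
theorem kap_eq {n : ℕ} (k l : Fin n) : kap k l =
    if (k : ℤ) = l then 1 else if (k : ℤ) = l + 1 ∨ (l : ℤ) = k + 1 then 1 / 2 else 0 := by
  unfold kap
  rw [sum_av]
  unfold av
  have e1 : (k.castSucc = l.castSucc) ↔ (k : ℤ) = l := by
    rw [Fin.ext_iff]; simp
  have e2 : (k.castSucc = l.succ) ↔ (k : ℤ) = l + 1 := by
    rw [Fin.ext_iff]; simp; omega
  have e3 : (k.succ = l.castSucc) ↔ (l : ℤ) = k + 1 := by
    rw [Fin.ext_iff]; simp; omega
  have e4 : (k.succ = l.succ) ↔ (k : ℤ) = l := by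
    rw [Fin.ext_iff]; simp
  simp only [e1, e2, e3, e4]
  by_cases h1 : (k : ℤ) = l
  · rw [if_pos (Or.inl h1), if_pos (Or.inr h1), if_pos h1]
    norm_num
  · rw [if_neg h1]
    by_cases h2 : (k : ℤ) = l + 1
    · rw [if_pos (Or.inr h2), if_neg, if_pos (Or.inl h2)]
      · norm_num
      · rintro (h | h)
        · omega
        · exact h1 h
    · by_cases h3 : (l : ℤ) = k + 1
      · rw [if_neg, if_pos (Or.inl h3), if_pos (Or.inr h3)]
        · norm_num
        · rintro (h | h)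
          · exact h1 h
          · exact h2 h
      · rw [if_neg (by tauto), if_neg (by tauto), if_neg (by tauto)]
        norm_num

section Block

variable {n : ℕ} {S : Type} [Fintype S] [DecidableEq S]

/-- block diagonal real matrix with rank one blocks -/
noncomputable def Rk {n : ℕ} {S : Type} [DecidableEq S] (c : S → ℝ)
    (f g : S → Fin n) : Matrix (S × Fin (n + 1)) (S × Fin (n + 1)) ℝ :=
  fun p q => if p.1 = q.1 then c p.1 * (1 / 2) * av (f p.1) p.2 * av (g p.1) q.2 else 0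

theorem rk_mul (c c' : S → ℝ) (f g f' g' : S → Fin n) :
    Rk c f g * Rk c' f' g' = Rk (fun s => c s * kap (g s) (f' s) * c' s) f g' := by
  ext p q
  rw [Matrix.mul_apply, Fintype.sum_prod_type]
  simp only [Rk]
  have h1 : ∀ s : S, ∑ j : Fin (n + 1), ((if p.1 = s then
      (c p.1 * (1 / 2) * av (f p.1) p.2 * av (g p.1) j) else 0) *
      (if s = q.1 then (c' s * (1 / 2) * av (f' s) j * av (g' s) q.2) else 0)) =
      if p.1 = s then (if p.1 = q.1 then
        (c p.1 * kap (g p.1) (f' p.1) * c' p.1 * (1 / 2) * av (f p.1) p.2 * av (g' p.1) q.2)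
        else 0) else 0 := by
    intro s
    by_cases h1 : p.1 = s
    · subst h1
      by_cases h2 : p.1 = q.1
      · simp only [if_pos h2, if_true]
        have h3 : ∀ j, c p.1 * (1 / 2) * av (f p.1) p.2 * av (g p.1) j *
            (c' p.1 * (1 / 2) * av (f' p.1) j * av (g' p.1) q.2) =
            (c p.1 * c' p.1 * (1 / 2) * av (f p.1) p.2 * av (g' p.1) q.2) *
              ((1 / 2) * (av (g p.1) j * av (f' p.1) j)) := fun j => by ring
        simp only [h3]
        rw [← Finset.mul_sum, ← Finset.mul_sum]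
        unfold kap
        ring
      · simp [h2]
    · simp [h1]
  simp only [h1]
  rw [Finset.sum_ite_eq univ]
  simp

omit [Fintype S] in
theorem rk_transpose (c : S → ℝ) (f g : S → Fin n) : (Rk c f g).transpose = Rk c g f := by
  ext p q
  simp only [Matrix.transpose_apply, Rk]
  by_cases h : p.1 = q.1
  · rw [if_pos h, if_pos h.symm, h]
    ring
  · rw [if_neg h, if_neg (fun h' => h h'.symm)]

/-- the same matrix over `𝕜` -/
noncomputable def Blk (𝕜 : Type) [RCLike 𝕜] {n : ℕ} {S : Type} [DecidableEq S] (c : S → ℝ)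
    (f g : S → Fin n) : Matrix (S × Fin (n + 1)) (S × Fin (n + 1)) 𝕜 :=
  (Rk c f g).map (algebraMap ℝ 𝕜)

variable {𝕜 : Type} [RCLike 𝕜]

theorem blk_mul (c c' : S → ℝ) (f g f' g' : S → Fin n) :
    Blk 𝕜 c f g * Blk 𝕜 c' f' g' = Blk 𝕜 (fun s => c s * kap (g s) (f' s) * c' s) f g' := by
  unfold Blk
  rw [← Matrix.map_mul, rk_mul]

omit [Fintype S] in
theorem blk_conj (c : S → ℝ) (f g : S → Fin n) : (Blk 𝕜 c f g).conjTranspose = Blk 𝕜 c g f := by
  unfold Blk
  rw [← rk_transpose c f g]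
  ext p q
  simp [Matrix.conjTranspose_apply]

theorem blk_mulVec (c : S → ℝ) (f g : S → Fin n) (v : S × Fin (n + 1) → 𝕜) (p : S × Fin (n + 1)) :
    (Blk 𝕜 c f g).mulVec v p = ((c p.1 * (1 / 2) * av (f p.1) p.2 : ℝ) : 𝕜) *
      ∑ j, ((av (g p.1) j : ℝ) : 𝕜) * v (p.1, j) := by
  unfold Blk
  rw [Matrix.mulVec, dotProduct, Fintype.sum_prod_type]
  simp only [Matrix.map_apply, Rk]
  have h1 : ∀ s : S, ∑ j : Fin (n + 1), (algebraMap ℝ 𝕜 (if p.1 = s then
      c p.1 * (1 / 2) * av (f p.1) p.2 * av (g p.1) j else 0)) * v (s, j) =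
      if p.1 = s then ((c p.1 * (1 / 2) * av (f p.1) p.2 : ℝ) : 𝕜) *
        ∑ j, ((av (g p.1) j : ℝ) : 𝕜) * v (p.1, j) else 0 := by
    intro s
    by_cases h1 : p.1 = s
    · subst h1
      simp only [if_true]
      rw [Finset.mul_sum]
      refine Finset.sum_congr rfl fun j _ => ?_
      rw [RCLike.algebraMap_eq_ofReal]
      push_cast
      ring
    · simp [h1]
  simp only [h1]
  rw [Finset.sum_ite_eq univ]
  simp

/-- upper bound for the norm -/
theorem blk_norm_le (c : S → ℝ) (f g : S → Fin n) (C : ℝ) (hC : 0 ≤ C) (hc : ∀ s, |c s| ≤ C) :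
    ‖Blk 𝕜 c f g‖ ≤ C := by
  rw [Matrix.cstar_norm_def]
  refine ContinuousLinearMap.opNorm_le_bound _ hC fun v => ?_
  have h0 : ∀ p, (Matrix.toEuclideanCLM (n := S × Fin (n + 1)) (𝕜 := 𝕜) (Blk 𝕜 c f g) v) p =
      (Blk 𝕜 c f g).mulVec v p := fun p => rfl
  rw [EuclideanSpace.norm_eq, EuclideanSpace.norm_eq]
  refine Real.sqrt_le_iff.2 ⟨by positivity, ?_⟩
  rw [mul_pow, Real.sq_sqrt (Finset.sum_nonneg fun _ _ => by positivity)]
  simp only [h0, blk_mulVec]
  rw [Fintype.sum_prod_type, Fintype.sum_prod_type, Finset.mul_sum]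
  refine Finset.sum_le_sum fun s _ => ?_
  simp only
  obtain ⟨z, hz⟩ : ∃ z, z = ∑ j, ((av (g s) j : ℝ) : 𝕜) * v (s, j) := ⟨_, rfl⟩
  rw [← hz]
  have hz2 : ‖z‖ ^ 2 ≤ 2 * ∑ j, ‖v (s, j)‖ ^ 2 := by
    have h1 : ‖z‖ ≤ ∑ j, |av (g s) j| * ‖v (s, j)‖ := by
      rw [hz]
      refine (norm_sum_le _ _).trans (Finset.sum_le_sum fun j _ => ?_)
      rw [norm_mul, RCLike.norm_ofReal]
    have h2 := Finset.sum_mul_sq_le_sq_mul_sq univ (fun j => |av (g s) j|) (fun j => ‖v (s, j)‖)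
    have h3 : ∑ j, |av (g s) j| ^ 2 = 2 := by
      rw [← av_sq (g s)]
      exact Finset.sum_congr rfl fun j _ => by rw [sq_abs, sq]
    rw [h3] at h2
    exact (pow_le_pow_left₀ (norm_nonneg _) h1 2).trans h2
  have h4 : ∀ j, ‖((c s * (1 / 2) * av (f s) j : ℝ) : 𝕜) * z‖ ^ 2 =
      (c s ^ 2 * (1 / 4) * ‖z‖ ^ 2) * (av (f s) j * av (f s) j) := by
    intro j
    rw [norm_mul, RCLike.norm_ofReal, mul_pow, sq_abs]
    ring
  simp only [h4]
  rw [← Finset.mul_sum, av_sq]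
  have h5 : c s ^ 2 ≤ C ^ 2 := by
    rw [← sq_abs]
    exact pow_le_pow_left₀ (abs_nonneg _) (hc s) 2
  have h6 : 0 ≤ ∑ j, ‖v (s, j)‖ ^ 2 := Finset.sum_nonneg fun _ _ => by positivity
  calc c s ^ 2 * (1 / 4) * ‖z‖ ^ 2 * 2 = c s ^ 2 * (1 / 2) * ‖z‖ ^ 2 := by ring
    _ ≤ C ^ 2 * (1 / 2) * (2 * ∑ j, ‖v (s, j)‖ ^ 2) := by gcongr
    _ = _ := by ring

/-- lower bound for the norm -/
theorem le_blk_norm (c : S → ℝ) (f g : S → Fin n) (s : S) : |c s| ≤ ‖Blk 𝕜 c f g‖ := by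
  let v : EuclideanSpace 𝕜 (S × Fin (n + 1)) :=
    WithLp.toLp 2 (fun q => if q.1 = s then ((av (g s) q.2 : ℝ) : 𝕜) else 0)
  have hv : ∀ q, v q = if q.1 = s then ((av (g s) q.2 : ℝ) : 𝕜) else 0 := fun q => rfl
  have hnv : ‖v‖ ^ 2 = 2 := by
    rw [EuclideanSpace.norm_sq_eq, Fintype.sum_prod_type]
    simp only [hv]
    have h1 : ∀ t : S, ∑ j : Fin (n + 1), ‖(if t = s then ((av (g s) j : ℝ) : 𝕜) else 0)‖ ^ 2 =
        if t = s then 2 else 0 := by
      intro t
      by_cases ht : t = s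
      · simp only [if_pos ht, RCLike.norm_ofReal, sq_abs]
        rw [← av_sq (g s)]
        exact Finset.sum_congr rfl fun j _ => by ring
      · simp [ht]
    simp only [h1]
    simp
  have hz : ∑ j, ((av (g s) j : ℝ) : 𝕜) * v (s, j) = ((2 : ℝ) : 𝕜) := by
    simp only [hv, if_true]
    rw [← av_sq (g s)]
    push_cast
    rfl
  have h2 : ‖(WithLp.toLp 2 ((Blk 𝕜 c f g).mulVec v) : EuclideanSpace 𝕜 (S × Fin (n + 1)))‖ ≤
      ‖Blk 𝕜 c f g‖ * ‖v‖ := Matrix.l2_opNorm_mulVec (Blk 𝕜 c f g) v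
  have h3 : ‖(WithLp.toLp 2 ((Blk 𝕜 c f g).mulVec v) : EuclideanSpace 𝕜 (S × Fin (n + 1)))‖ ^ 2 ≥
      2 * c s ^ 2 := by
    rw [EuclideanSpace.norm_sq_eq, Fintype.sum_prod_type]
    have h4 : ∑ j : Fin (n + 1), ‖(Blk 𝕜 c f g).mulVec v (s, j)‖ ^ 2 = 2 * c s ^ 2 := by
      simp only [blk_mulVec, hz]
      have h5 : ∀ j, ‖((c s * (1 / 2) * av (f s) j : ℝ) : 𝕜) * ((2 : ℝ) : 𝕜)‖ ^ 2 =
          c s ^ 2 * (av (f s) j * av (f s) j) := by
        intro j
        rw [norm_mul, RCLike.norm_ofReal, RCLike.norm_ofReal, mul_pow, sq_abs, sq_abs]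
        ring
      simp only [h5]
      rw [← Finset.mul_sum, av_sq]
      ring
    rw [← h4]
    exact Finset.single_le_sum (f := fun t => ∑ j : Fin (n + 1),
      ‖(Blk 𝕜 c f g).mulVec v (t, j)‖ ^ 2) (fun t _ => Finset.sum_nonneg fun _ _ => by positivity)
      (Finset.mem_univ s)
  have h6 := pow_le_pow_left₀ (norm_nonneg _) h2 2
  rw [mul_pow, hnv] at h6
  have h7 : |c s| ^ 2 ≤ ‖Blk 𝕜 c f g‖ ^ 2 := by
    rw [sq_abs]
    linarith
  exact le_of_sq_le_sq h7 (norm_nonneg _)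

end Block

/-- relabelling the coordinates does not increase the norm -/
theorem norm_submatrix_le {𝕜 : Type} [RCLike 𝕜] {ι κ : Type} [Fintype ι] [DecidableEq ι]
    [Fintype κ] [DecidableEq κ] (M : Matrix ι ι 𝕜) (e : κ ≃ ι) : ‖M.submatrix e e‖ ≤ ‖M‖ := by
  rw [Matrix.cstar_norm_def (M.submatrix e e)]
  refine ContinuousLinearMap.opNorm_le_bound _ (norm_nonneg _) fun v => ?_
  let w : EuclideanSpace 𝕜 ι := WithLp.toLp 2 (fun i => v (e.symm i))
  have hw : ‖w‖ = ‖v‖ := by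
    rw [EuclideanSpace.norm_eq, EuclideanSpace.norm_eq]
    congr 1
    exact Equiv.sum_comp e.symm (fun k => ‖v k‖ ^ 2)
  have h1 := Matrix.l2_opNorm_mulVec M w
  rw [hw] at h1
  refine le_trans (le_of_eq ?_) h1
  rw [EuclideanSpace.norm_eq, EuclideanSpace.norm_eq]
  congr 1
  rw [← Equiv.sum_comp e]
  refine Finset.sum_congr rfl fun k _ => ?_
  congr 2
  have h2 : (Matrix.toEuclideanCLM (n := κ) (𝕜 := 𝕜) (M.submatrix e e) v) k =
      (M.submatrix e e).mulVec v k := rfl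
  rw [h2]
  show ∑ l, M (e k) (e l) * v l = ∑ i, M (e k) i * w i
  rw [← Equiv.sum_comp e (fun i => M (e k) i * w i)]
  refine Finset.sum_congr rfl fun l _ => ?_
  show M (e k) (e l) * v l = M (e k) (e l) * v (e.symm (e l))
  rw [Equiv.symm_apply_apply]

theorem norm_submatrix {𝕜 : Type} [RCLike 𝕜] {ι κ : Type} [Fintype ι] [DecidableEq ι]
    [Fintype κ] [DecidableEq κ] (M : Matrix ι ι 𝕜) (e : κ ≃ ι) : ‖M.submatrix e e‖ = ‖M‖ := by
  apply le_antisymm (norm_submatrix_le M e)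
  have h := norm_submatrix_le (M.submatrix e e) e.symm
  rw [Matrix.submatrix_submatrix] at h
  simpa using h

end Pool.Agent.TH325.AG
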