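import Pool.Agent.TH325.AG.Wrd

set_option autoImplicit false

open Finset

namespace Pool.Agent.TH325.AG

open Classical in
/-- number of words with a given pattern -/
theorem card_tw {n N : ℕ} (x : Fin N → SignType) :
    (univ.filter fun w : Fin (N + 1) → Fin n => Tw w x).card ≤
      n.descFactorial (univ.image (yy x)).card := by
  have hc : ∀ v : ↥(univ.image (yy x)), ∃ s, yy x s = (v : ℤ) := by
    intro v
    obtain ⟨s, _, hs⟩ := Finset.mem_image.1 v.2
    exact ⟨s, hs⟩
  choose c hc using hc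
  have h1 : Fintype.card (↥(univ.image (yy x)) ↪ Fin n) =
      n.descFactorial (univ.image (yy x)).card := by
    rw [Fintype.card_embedding_eq]
    simp
  rw [← h1, ← Fintype.card_subtype]
  let f : {w : Fin (N + 1) → Fin n // Tw w x} → (↥(univ.image (yy x)) ↪ Fin n) := fun w =>
    ⟨fun v => w.1 (c v), fun v v' h => Subtype.ext (by
      rw [← hc v, ← hc v']
      exact (w.2 _ _).1 h)⟩
  refine Fintype.card_le_of_injective f ?_
  intro w w' h
  apply Subtype.ext
  funext s
  let v : ↥(univ.image (yy x)) := ⟨yy x s, Finset.mem_image_of_mem _ (Finset.mem_univ s)⟩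
  have e1 : w.1 s = w.1 (c v) := (w.2 _ _).2 (hc v).symm
  have e2 : w'.1 s = w'.1 (c v) := (w'.2 _ _).2 (hc v).symm
  have e3 : w.1 (c v) = w'.1 (c v) := by
    have := congrArg (fun g : (↥(univ.image (yy x)) ↪ Fin n) => g v) h
    exact this
  rw [e1, e2, e3]

/-- number of steps equal to `v` -/
def cnt {N : ℕ} (v : SignType) (x : Fin N → SignType) : ℕ := (univ.filter fun t => x t = v).card

theorem yy_sub_le {N : ℕ} (x : Fin N → SignType) (s t : Fin (N + 1)) :
    yy x s - yy x t ≤ (max (cnt 1 x) (cnt (-1) x) : ℕ) := by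
  unfold yy
  rw [← Finset.sum_sub_distrib]
  rcases le_total t s with h | h
  · have h1 : ∀ u : Fin N, ((if u.castSucc < s then ((x u : SignType) : ℤ) else 0) -
        (if u.castSucc < t then ((x u : SignType) : ℤ) else 0)) ≤ if x u = 1 then 1 else 0 := by
      intro u
      by_cases h2 : u.castSucc < t
      · rw [if_pos (h2.trans_le h), if_pos h2, sub_self]
        split_ifs <;> norm_num
      · rw [if_neg h2, sub_zero]
        by_cases h3 : u.castSucc < s
        · rw [if_pos h3]
          generalize x u = y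
          revert y
          decide
        · rw [if_neg h3]
          split_ifs <;> norm_num
    refine (Finset.sum_le_sum fun u _ => h1 u).trans ?_
    rw [Finset.sum_boole]
    unfold cnt
    push_cast
    exact le_max_left _ _
  · have h1 : ∀ u : Fin N, ((if u.castSucc < s then ((x u : SignType) : ℤ) else 0) -
        (if u.castSucc < t then ((x u : SignType) : ℤ) else 0)) ≤ if x u = -1 then 1 else 0 := by
      intro u
      by_cases h2 : u.castSucc < s
      · rw [if_pos (h2.trans_le h), if_pos h2, sub_self]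
        split_ifs <;> norm_num
      · rw [if_neg h2]
        by_cases h3 : u.castSucc < t
        · rw [if_pos h3]
          generalize x u = y
          revert y
          decide
        · rw [if_neg h3]
          split_ifs <;> norm_num
    refine (Finset.sum_le_sum fun u _ => h1 u).trans ?_
    rw [Finset.sum_boole]
    unfold cnt
    push_cast
    exact le_max_right _ _

theorem card_image_yy {N : ℕ} (x : Fin N → SignType) :
    (univ.image (yy x)).card ≤ max (cnt 1 x) (cnt (-1) x) + 1 := by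
  have hne : (univ.image (yy x)).Nonempty := ⟨yy x 0, Finset.mem_image_of_mem _ (Finset.mem_univ _)⟩
  obtain ⟨t, _, ht⟩ := Finset.mem_image.1 ((univ.image (yy x)).min'_mem hne)
  have hsub : univ.image (yy x) ⊆ Finset.Icc (yy x t)
      (yy x t + (max (cnt 1 x) (cnt (-1) x) : ℕ)) := by
    intro v hv
    have h1 := (univ.image (yy x)).min'_le v hv
    obtain ⟨s, _, hs⟩ := Finset.mem_image.1 hv
    rw [Finset.mem_Icc]
    constructor
    · rw [ht]
      exact h1
    · rw [← hs]
      have := yy_sub_le x s t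
      linarith
  refine (Finset.card_le_card hsub).trans (le_of_eq ?_)
  rw [Int.card_Icc]
  omega

theorem pow_six (j : ℕ) : 6 ^ j * 5 ≤ 324 * j.factorial := by
  by_cases h : j < 6
  · interval_cases j <;> decide
  · push Not at h
    induction j, h using Nat.le_induction with
    | base => decide
    | succ j hj ih =>
      rw [Nat.factorial_succ, pow_succ]
      have : 6 ≤ j + 1 := by omega
      nlinarith [Nat.factorial_pos j]

theorem desc_le (N a : ℕ) (h1 : 1 ≤ a) (h2 : a ≤ N + 1) :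
    (N + 1).descFactorial a * 6 ^ N * 5 ≤ 324 * (N + 1).factorial * 6 ^ (a - 1) := by
  obtain ⟨r, rfl⟩ : ∃ r, a = r + 1 := ⟨a - 1, by omega⟩
  have h3 : r ≤ N := by omega
  obtain ⟨j, rfl⟩ : ∃ j, N = r + j := ⟨N - r, by omega⟩
  have h4 := Nat.factorial_mul_descFactorial h2
  have h5 : r + j + 1 - (r + 1) = j := by omega
  rw [h5] at h4
  rw [← h4, Nat.add_sub_cancel, pow_add]
  have := pow_six j
  calc (r + j + 1).descFactorial (r + 1) * (6 ^ r * 6 ^ j) * 5 =
      (r + j + 1).descFactorial (r + 1) * 6 ^ r * (6 ^ j * 5) := by ring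
    _ ≤ (r + j + 1).descFactorial (r + 1) * 6 ^ r * (324 * j.factorial) :=
        Nat.mul_le_mul_left _ this
    _ = _ := by ring

theorem st_cases : ∀ v : SignType, v ≠ 0 → v = 1 ∨ v = -1 := by decide

theorem sum_om (N : ℕ) (v : SignType) (hv : v ≠ 0) :
    ∑ x : Fin N → SignType, om x * 6 ^ (cnt v x) = (9 / 2 : ℝ) ^ N := by
  have h1 : ∀ x : Fin N → SignType, om x * (6 : ℝ) ^ (cnt v x) =
      ∏ s, ((if x s = 0 then 1 else 1 / 2) * (if x s = v then 6 else 1) : ℝ) := by
    intro x
    rw [Finset.prod_mul_distrib]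
    unfold om cnt
    congr 1
    rw [Finset.prod_ite, Finset.prod_const, Finset.prod_const, one_pow, mul_one]
  simp only [h1]
  have h2 := Finset.prod_univ_sum (fun _ : Fin N => (univ : Finset SignType))
    (fun _ y => ((if y = 0 then 1 else 1 / 2) * (if y = v then 6 else 1) : ℝ))
  rw [Fintype.piFinset_univ] at h2
  rw [← h2]
  have h3 : ∑ y : SignType, ((if y = 0 then 1 else 1 / 2) * (if y = v then 6 else 1) : ℝ) =
      9 / 2 := by
    have h4 : (univ : Finset SignType) = {0, -1, 1} := by decide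
    rw [h4]
    rw [Finset.sum_insert (by decide), Finset.sum_insert (by decide), Finset.sum_singleton]
    have e2 : (0 : SignType) ≠ v := fun h => hv h.symm
    rw [if_pos rfl, if_neg e2, if_neg (show ¬ ((-1 : SignType) = 0) by decide),
      if_neg (show ¬ ((1 : SignType) = 0) by decide)]
    have e3 : v = 1 ∨ v = -1 := st_cases v hv
    rcases e3 with rfl | rfl
    · rw [if_neg (by decide), if_pos rfl]
      norm_num
    · rw [if_pos rfl, if_neg (by decide)]
      norm_num
  rw [h3, Finset.prod_const, Finset.card_univ, Fintype.card_fin]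

/-- the main upper bound: the sum of the norms of all words of length `n = N + 1` -/
theorem sum_gw_le (N : ℕ) :
    ∑ w : Fin (N + 1) → Fin (N + 1), gw w ≤
      (648 / 5) * ((N + 1).factorial : ℝ) * (3 / 4 : ℝ) ^ N := by
  classical
  have h6 : (0 : ℝ) < 6 ^ N := by positivity
  have h1 : ∑ w : Fin (N + 1) → Fin (N + 1), gw w =
      ∑ x : Fin N → SignType, om x *
        ((univ.filter fun w : Fin (N + 1) → Fin (N + 1) => Tw w x).card : ℝ) := by
    unfold gw
    rw [Finset.sum_comm]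
    refine Finset.sum_congr rfl fun x _ => ?_
    rw [← Finset.sum_filter, Finset.sum_const, nsmul_eq_mul, mul_comm]
  have h2 : ∀ x : Fin N → SignType,
      ((univ.filter fun w : Fin (N + 1) → Fin (N + 1) => Tw w x).card : ℝ) * 6 ^ N ≤
        (324 / 5) * ((N + 1).factorial : ℝ) * (6 ^ (cnt 1 x) + 6 ^ (cnt (-1) x)) := by
    intro x
    have hc := card_tw (n := N + 1) x
    obtain ⟨a, ha⟩ : ∃ a, a = (univ.image (yy x)).card := ⟨_, rfl⟩
    rw [← ha] at hc
    have ha1 : 1 ≤ a := by
      rw [ha]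
      exact Finset.card_pos.2 ⟨yy x 0, Finset.mem_image_of_mem _ (Finset.mem_univ _)⟩
    have ha2 : a ≤ max (cnt 1 x) (cnt (-1) x) + 1 := by
      rw [ha]
      exact card_image_yy x
    have ha3 : a ≤ N + 1 := by
      rw [ha]
      refine Finset.card_image_le.trans ?_
      rw [Finset.card_univ, Fintype.card_fin]
    have h3 := desc_le N a ha1 ha3
    have h4 : 6 ^ (a - 1) ≤ 6 ^ (cnt 1 x) + 6 ^ (cnt (-1) x) := by
      rcases le_total (cnt 1 x) (cnt (-1) x) with h | h
      · rw [max_eq_right h] at ha2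
        have : 6 ^ (a - 1) ≤ 6 ^ (cnt (-1) x) := Nat.pow_le_pow_right (by norm_num) (by omega)
        exact this.trans (Nat.le_add_left _ _)
      · rw [max_eq_left h] at ha2
        have : 6 ^ (a - 1) ≤ 6 ^ (cnt 1 x) := Nat.pow_le_pow_right (by norm_num) (by omega)
        exact this.trans (Nat.le_add_right _ _)
    have h5 : (univ.filter fun w : Fin (N + 1) → Fin (N + 1) => Tw w x).card * 6 ^ N * 5 ≤
        324 * (N + 1).factorial * (6 ^ (cnt 1 x) + 6 ^ (cnt (-1) x)) :=
      calc (univ.filter fun w : Fin (N + 1) → Fin (N + 1) => Tw w x).card * 6 ^ N * 5 ≤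
          (N + 1).descFactorial a * 6 ^ N * 5 := by gcongr
        _ ≤ 324 * (N + 1).factorial * 6 ^ (a - 1) := h3
        _ ≤ _ := Nat.mul_le_mul_left _ h4
    have h7 : (((univ.filter fun w : Fin (N + 1) → Fin (N + 1) => Tw w x).card * 6 ^ N * 5 : ℕ) : ℝ)
        ≤ ((324 * (N + 1).factorial * (6 ^ (cnt 1 x) + 6 ^ (cnt (-1) x)) : ℕ) : ℝ) :=
      Nat.cast_le.2 h5
    push_cast at h7
    linarith
  have h8 : (∑ w : Fin (N + 1) → Fin (N + 1), gw w) * 6 ^ N ≤
      (648 / 5) * ((N + 1).factorial : ℝ) * (9 / 2 : ℝ) ^ N := by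
    rw [h1, Finset.sum_mul]
    calc ∑ x : Fin N → SignType, om x *
        ((univ.filter fun w : Fin (N + 1) → Fin (N + 1) => Tw w x).card : ℝ) * 6 ^ N ≤
        ∑ x : Fin N → SignType, (324 / 5) * ((N + 1).factorial : ℝ) *
          (om x * 6 ^ (cnt 1 x) + om x * 6 ^ (cnt (-1) x)) := by
          refine Finset.sum_le_sum fun x _ => ?_
          rw [mul_assoc]
          calc om x * (((univ.filter fun w : Fin (N + 1) → Fin (N + 1) => Tw w x).card : ℝ) * 6 ^ N)
              ≤ om x * ((324 / 5) * ((N + 1).factorial : ℝ) *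
                (6 ^ (cnt 1 x) + 6 ^ (cnt (-1) x))) :=
                mul_le_mul_of_nonneg_left (h2 x) (om_nonneg x)
            _ = _ := by ring
      _ = (324 / 5) * ((N + 1).factorial : ℝ) * ((9 / 2 : ℝ) ^ N + (9 / 2 : ℝ) ^ N) := by
          rw [← Finset.mul_sum, Finset.sum_add_distrib, sum_om N 1 (by decide),
            sum_om N (-1) (by decide)]
      _ = _ := by ring
  have h9 : (9 / 2 : ℝ) ^ N = (3 / 4 : ℝ) ^ N * 6 ^ N := by
    rw [← mul_pow]
    norm_num
  rw [h9, ← mul_assoc] at h8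
  exact le_of_mul_le_mul_right h8 h6

theorem fact_le_pow (N : ℕ) :
    ((N + 1).factorial : ℝ) * 2 ^ N ≤ ((N + 1 : ℕ) : ℝ) ^ (N + 1) := by
  induction N with
  | zero => norm_num
  | succ N ih =>
    have hpos : (0 : ℝ) < ((N + 1 : ℕ) : ℝ) := by exact_mod_cast Nat.succ_pos N
    have hb : 1 + ((N + 1 : ℕ) : ℝ) * (1 / ((N + 1 : ℕ) : ℝ)) ≤
        (1 + 1 / ((N + 1 : ℕ) : ℝ)) ^ (N + 1) :=
      one_add_mul_le_pow (by
        have : 0 ≤ 1 / ((N + 1 : ℕ) : ℝ) := by positivity
        linarith) (N + 1)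
    have e1 : ((N + 1 : ℕ) : ℝ) * (1 / ((N + 1 : ℕ) : ℝ)) = 1 := by
      field_simp
    have e2 : (1 + 1 / ((N + 1 : ℕ) : ℝ)) * ((N + 1 : ℕ) : ℝ) = ((N + 1 + 1 : ℕ) : ℝ) := by
      push_cast
      field_simp
    have e3 : 2 * ((N + 1 : ℕ) : ℝ) ^ (N + 1) ≤ ((N + 1 + 1 : ℕ) : ℝ) ^ (N + 1) := by
      rw [← e2, mul_pow]
      have : (2 : ℝ) ≤ (1 + 1 / ((N + 1 : ℕ) : ℝ)) ^ (N + 1) := by linarith
      gcongr
    rw [Nat.factorial_succ, Nat.cast_mul, pow_succ (2 : ℝ) N,
      pow_succ (((N + 1 + 1 : ℕ) : ℝ)) (N + 1)]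
    calc ((N + 1 + 1 : ℕ) : ℝ) * ((N + 1).factorial : ℝ) * (2 ^ N * 2) =
        ((N + 1 + 1 : ℕ) : ℝ) * (2 * (((N + 1).factorial : ℝ) * 2 ^ N)) := by ring
      _ ≤ ((N + 1 + 1 : ℕ) : ℝ) * (2 * ((N + 1 : ℕ) : ℝ) ^ (N + 1)) := by gcongr
      _ ≤ ((N + 1 + 1 : ℕ) : ℝ) * ((N + 1 + 1 : ℕ) : ℝ) ^ (N + 1) := by gcongr
      _ = _ := by ring

end Pool.Agent.TH325.AG
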