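import Pool.Agent.TH325.AG.Blk

set_option autoImplicit false

open Finset
open scoped Matrix.Norms.L2Operator ComplexOrder

namespace Pool.Agent.TH325.AG

/-- the letters -/
noncomputable def Let (𝕜 : Type) [RCLike 𝕜] {n : ℕ} (i : Fin n) :
    Matrix (Equiv.Perm (Fin n) × Fin (n + 1)) (Equiv.Perm (Fin n) × Fin (n + 1)) 𝕜 :=
  Blk 𝕜 (fun _ => 1) (fun σ => σ i) (fun σ => σ i)

/-- the weight of a word in the arrangement `σ` -/
noncomputable def Kw {n N : ℕ} (σ : Equiv.Perm (Fin n)) (w : Fin (N + 1) → Fin n) : ℝ :=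
  ∏ s : Fin N, kap (σ (w s.castSucc)) (σ (w s.succ))

theorem prod_word {𝕜 : Type} [RCLike 𝕜] {n : ℕ} (N : ℕ) (w : Fin (N + 1) → Fin n) :
    (List.ofFn fun s => Let 𝕜 (w s)).prod =
      Blk 𝕜 (fun σ => Kw σ w) (fun σ => σ (w 0)) (fun σ => σ (w (Fin.last N))) := by
  induction N with
  | zero =>
    rw [List.ofFn_succ, List.prod_cons, List.ofFn_zero, List.prod_nil, mul_one]
    unfold Let Kw
    simp
  | succ N ih =>
    rw [List.ofFn_succ, List.prod_cons, ih (fun s => w s.succ)]
    unfold Let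
    rw [blk_mul]
    have h1 : (fun σ : Equiv.Perm (Fin n) => 1 * kap (σ (w 0)) (σ (w (Fin.succ 0))) *
        Kw σ (fun s => w s.succ)) = fun σ => Kw σ w := by
      ext σ
      unfold Kw
      rw [Fin.prod_univ_succ, one_mul]
      rfl
    rw [h1]
    rfl

theorem let_posSemidef {𝕜 : Type} [RCLike 𝕜] {n : ℕ} (i : Fin n) : (Let 𝕜 i).PosSemidef := by
  have h : Let 𝕜 i = (Let 𝕜 i).conjTranspose * Let 𝕜 i := by
    unfold Let
    rw [blk_conj, blk_mul]
    simp [kap_self]
  rw [h]
  exact Matrix.posSemidef_conjTranspose_mul_self _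

theorem let_sq {𝕜 : Type} [RCLike 𝕜] {n : ℕ} (i : Fin n) : Let 𝕜 i * Let 𝕜 i = Let 𝕜 i := by
  unfold Let
  rw [blk_mul]
  simp [kap_self]

theorem kap_nonneg {n : ℕ} (k l : Fin n) : 0 ≤ kap k l := by
  rw [kap_eq]
  split_ifs <;> norm_num

theorem kw_nonneg {n N : ℕ} (σ : Equiv.Perm (Fin n)) (w : Fin (N + 1) → Fin n) : 0 ≤ Kw σ w :=
  Finset.prod_nonneg fun _ _ => kap_nonneg _ _

/-- the weight of a pattern of steps -/
noncomputable def om {N : ℕ} (x : Fin N → SignType) : ℝ := ∏ s, if x s = 0 then 1 else 1 / 2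

/-- the walk with given steps -/
def yy {N : ℕ} (x : Fin N → SignType) (s : Fin (N + 1)) : ℤ :=
  ∑ t : Fin N, if t.castSucc < s then ((x t : SignType) : ℤ) else 0

theorem yy_zero {N : ℕ} (x : Fin N → SignType) : yy x 0 = 0 := by
  unfold yy
  refine Finset.sum_eq_zero fun t _ => ?_
  rw [if_neg]
  exact Fin.not_lt_zero _

theorem yy_succ {N : ℕ} (x : Fin N → SignType) (s : Fin N) :
    yy x s.succ = yy x s.castSucc + ((x s : SignType) : ℤ) := by
  unfold yy
  have h1 : ∀ t : Fin N, (if t.castSucc < s.succ then ((x t : SignType) : ℤ) else 0) =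
      (if t.castSucc < s.castSucc then ((x t : SignType) : ℤ) else 0) +
      (if t = s then ((x t : SignType) : ℤ) else 0) := by
    intro t
    rcases lt_trichotomy t s with h | h | h
    · rw [if_pos, if_pos, if_neg h.ne, add_zero]
      · exact Fin.castSucc_lt_castSucc_iff.2 h
      · exact Fin.castSucc_lt_succ_iff.2 h.le
    · subst h
      rw [if_pos, if_neg, if_pos rfl, zero_add]
      · exact lt_irrefl _
      · exact Fin.castSucc_lt_succ_iff.2 le_rfl
    · rw [if_neg, if_neg, if_neg h.ne', add_zero]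
      · exact fun h' => lt_asymm h (Fin.castSucc_lt_castSucc_iff.1 h')
      · exact fun h' => absurd (Fin.castSucc_lt_succ_iff.1 h') (not_le.2 h)
  simp only [h1]
  rw [Finset.sum_add_distrib, Finset.sum_ite_eq' univ]
  simp

/-- the word has the pattern of coincidences of the walk -/
def Tw {n N : ℕ} (w : Fin (N + 1) → Fin n) (x : Fin N → SignType) : Prop :=
  ∀ s t, w s = w t ↔ yy x s = yy x t

theorem kw_walk {n N : ℕ} (σ : Equiv.Perm (Fin n)) (w : Fin (N + 1) → Fin n) (h : Kw σ w ≠ 0) :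
    ∃ x, Tw w x ∧ Kw σ w = om x := by
  have hne : ∀ s : Fin N, kap (σ (w s.castSucc)) (σ (w s.succ)) ≠ 0 := fun s =>
    (Finset.prod_ne_zero_iff.1 h) s (Finset.mem_univ s)
  let x : Fin N → SignType := fun s =>
    SignType.sign (((σ (w s.succ) : Fin n) : ℤ) - ((σ (w s.castSucc) : Fin n) : ℤ))
  have hx : ∀ s : Fin N, ((σ (w s.succ) : Fin n) : ℤ) =
      ((σ (w s.castSucc) : Fin n) : ℤ) + ((x s : SignType) : ℤ) ∧
      kap (σ (w s.castSucc)) (σ (w s.succ)) = if x s = 0 then 1 else 1 / 2 := by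
    intro s
    have h1 := hne s
    rw [kap_eq] at h1 ⊢
    have hxs : x s = SignType.sign (((σ (w s.succ) : Fin n) : ℤ) -
      ((σ (w s.castSucc) : Fin n) : ℤ)) := rfl
    by_cases e1 : ((σ (w s.castSucc) : Fin n) : ℤ) = ((σ (w s.succ) : Fin n) : ℤ)
    · have e2 : x s = 0 := by
        rw [hxs, e1, sub_self]
        exact sign_zero
      rw [if_pos e1, e2, e1]
      simp
    · rw [if_neg e1] at h1 ⊢
      by_cases e2 : ((σ (w s.castSucc) : Fin n) : ℤ) = ((σ (w s.succ) : Fin n) : ℤ) + 1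
      · have e3 : x s = -1 := by
          rw [hxs, e2]
          have e4 : ((σ (w s.succ) : Fin n) : ℤ) - (((σ (w s.succ) : Fin n) : ℤ) + 1) = -1 := by
            ring
          rw [e4]
          exact sign_neg (by norm_num)
        rw [if_pos (Or.inl e2), e3, e2]
        simp
      · by_cases e3 : ((σ (w s.succ) : Fin n) : ℤ) = ((σ (w s.castSucc) : Fin n) : ℤ) + 1
        · have e5 : x s = 1 := by
            rw [hxs, e3]
            have e4 : ((σ (w s.castSucc) : Fin n) : ℤ) + 1 -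
              ((σ (w s.castSucc) : Fin n) : ℤ) = 1 := by ring
            rw [e4]
            exact sign_pos (by norm_num)
          rw [if_pos (Or.inr e3), e5, e3]
          simp
        · rw [if_neg (by tauto)] at h1
          exact absurd rfl h1
  have hy : ∀ s : Fin (N + 1), yy x s = ((σ (w s) : Fin n) : ℤ) - ((σ (w 0) : Fin n) : ℤ) := by
    intro s
    induction s using Fin.induction with
    | zero => rw [yy_zero, sub_self]
    | succ s ih =>
      rw [yy_succ, ih, (hx s).1]
      ring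
  refine ⟨x, fun s t => ?_, ?_⟩
  · rw [hy, hy]
    constructor
    · intro h'
      rw [h']
    · intro h'
      have h2 : ((σ (w s) : Fin n) : ℤ) = ((σ (w t) : Fin n) : ℤ) := by linarith
      have h3 : σ (w s) = σ (w t) := by
        apply Fin.ext
        exact_mod_cast h2
      exact σ.injective h3
  · unfold Kw om
    exact Finset.prod_congr rfl fun s _ => (hx s).2

open Classical in
/-- the upper bound for the norm of a word -/
noncomputable def gw {n N : ℕ} (w : Fin (N + 1) → Fin n) : ℝ :=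
  ∑ x : Fin N → SignType, if Tw w x then om x else 0

theorem om_nonneg {N : ℕ} (x : Fin N → SignType) : 0 ≤ om x :=
  Finset.prod_nonneg fun s _ => by split_ifs <;> norm_num

theorem kw_le_gw {n N : ℕ} (σ : Equiv.Perm (Fin n)) (w : Fin (N + 1) → Fin n) : Kw σ w ≤ gw w := by
  classical
  have hnn : ∀ x ∈ (Finset.univ : Finset (Fin N → SignType)), 0 ≤ if Tw w x then om x else 0 := by
    intro x _
    split_ifs
    · exact om_nonneg x
    · exact le_rfl
  by_cases h : Kw σ w = 0
  · rw [h]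
    exact Finset.sum_nonneg hnn
  · obtain ⟨x, hx, hK⟩ := kw_walk σ w h
    rw [hK]
    have h1 := Finset.single_le_sum hnn (Finset.mem_univ x)
    rw [if_pos hx] at h1
    exact h1

theorem norm_word_le {𝕜 : Type} [RCLike 𝕜] {n N : ℕ} (w : Fin (N + 1) → Fin n) :
    ‖(List.ofFn fun s => Let 𝕜 (w s)).prod‖ ≤ gw w := by
  rw [prod_word]
  have h0 : 0 ≤ gw w := (kw_nonneg (1 : Equiv.Perm (Fin n)) w).trans (kw_le_gw _ w)
  refine blk_norm_le _ _ _ _ h0 fun σ => ?_
  rw [abs_of_nonneg (kw_nonneg σ w)]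
  exact kw_le_gw σ w

theorem le_norm_word {𝕜 : Type} [RCLike 𝕜] {N : ℕ} (w : Fin (N + 1) → Fin (N + 1))
    (hw : Function.Injective w) : (1 / 2 : ℝ) ^ N ≤ ‖(List.ofFn fun s => Let 𝕜 (w s)).prod‖ := by
  rw [prod_word]
  let e : Equiv.Perm (Fin (N + 1)) := Equiv.ofBijective w (Finite.injective_iff_bijective.1 hw)
  have h1 := le_blk_norm (𝕜 := 𝕜) (fun σ => Kw σ w) (fun σ => σ (w 0))
    (fun σ => σ (w (Fin.last N))) e.symm
  refine le_trans (le_of_eq ?_) h1
  rw [abs_of_nonneg (kw_nonneg _ w)]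
  unfold Kw
  have h2 : ∀ s, e.symm (w s) = s := fun s => e.symm_apply_apply s
  simp only [h2]
  have h3 : ∀ s : Fin N, kap s.castSucc s.succ = 1 / 2 := by
    intro s
    rw [kap_eq, if_neg, if_pos]
    · right
      simp
    · simp
  simp only [h3]
  rw [Finset.prod_const, Finset.card_univ, Fintype.card_fin]

end Pool.Agent.TH325.AG
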